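import Pool.Agent.H2.NL.Basic

/-!
# MLG: the composition of the operators of tensors
-/

set_option autoImplicit false

open Matrix Pool.Agent.H2.NL Pool.Agent.H64.CC

namespace Pool.Agent.H48.NL

section

variable {K : Type} [Field K] {I : Type} [Fintype I] [DecidableEq I] (F : Form K I)

private theorem sum_vec_succ (n : ℕ) (f : List I → K) :
    ∑ v : List.Vector I (n + 1), f v.1 = ∑ a, ∑ v : List.Vector I n, f (a :: v.1) := by
  rw [← Fintype.sum_prod_type' (f := fun (a : I) (v : List.Vector I n) => f (a :: v.1))]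
  symm
  refine Fintype.sum_bijective (fun p : I × List.Vector I n => p.1 ::ᵥ p.2) ⟨?_, ?_⟩ _ _ ?_
  · rintro ⟨a, v⟩ ⟨b, w⟩ h
    have h1 : (a :: v.1 : List I) = b :: w.1 := congrArg Subtype.val h
    have h2 := List.cons.inj h1
    rw [h2.1, Subtype.ext h2.2]
  · rintro ⟨w, hw⟩
    match w, hw with
    | a :: w, hw =>
      exact ⟨(a, ⟨w, Nat.succ.inj hw⟩), rfl⟩
  · rintro ⟨a, v⟩
    rfl

private theorem sum_vec_zero (f : List I → K) :
    ∑ v : List.Vector I 0, f v.1 = f [] := by
  rw [Fintype.sum_eq_single (List.Vector.nil : List.Vector I 0)]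
  · rfl
  intro v hv
  exact absurd (Subtype.ext (List.length_eq_zero_iff.1 v.2)) hv

private theorem zip_prod (x : List I) : ∀ y : List I, x.length = y.length →
    (List.zipWith (fun a b => F.η a b) x y).prod =
      if y = x.map F.st then (x.map F.c).prod else 0 := by
  induction x with
  | nil =>
    intro y h
    have hy : y = [] := List.length_eq_zero_iff.1 h.symm
    subst hy
    simp
  | cons a x ih =>
    intro y h
    match y, h with
    | b :: y, h =>
      have h' : x.length = y.length := by simpa using h
      rw [List.zipWith_cons_cons, List.prod_cons, ih y h']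
      show F.η a b * _ = _
      rw [Form.η, Matrix.of_apply]
      by_cases h1 : b = F.st a
      · by_cases h2 : y = x.map F.st
        · rw [if_pos h1, if_pos h2, if_pos (by rw [h1, h2]; rfl)]
          rfl
        · have h4 : ¬ (b :: y = (a :: x).map F.st) := fun h3 => h2 (List.cons.inj h3).2
          rw [if_pos h1, if_neg h2, if_neg h4, mul_zero]
      · have h4 : ¬ (b :: y = (a :: x).map F.st) := fun h3 => h1 (List.cons.inj h3).1
        rw [if_neg h1, zero_mul, if_neg h4]

private theorem rev_map_map (x : List I) :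
    ((x.map F.st).reverse.map F.st).reverse = x := by
  rw [List.map_reverse, List.reverse_reverse, List.map_map]
  have h : F.st ∘ F.st = id := funext fun a => F.st_st a
  rw [h, List.map_id]

/-- the involution on words -/
private def iv (l : ℕ) (u : List.Vector I l) : List.Vector I l :=
  ⟨(u.1.map F.st).reverse, by simp [u.2]⟩

/-- the operator of a tensor -/
private theorem opw_eq (l : ℕ) (t : List I → K) (u u' : List I) (h : u'.length = l) :
    opw F.η l t u u' = t (u ++ (u'.map F.st).reverse) *
      ((u'.map F.st).reverse.map F.c).prod := by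
  have hl : ((u'.map F.st).reverse).length = l := by simp [h]
  obtain ⟨v0, hv0⟩ : ∃ v0 : List.Vector I l, v0.1 = (u'.map F.st).reverse := ⟨⟨_, hl⟩, rfl⟩
  unfold opw
  rw [Finset.sum_eq_single v0]
  · rw [hv0, zip_prod F _ _ (by simp)]
    rw [if_pos]
    · rw [List.map_reverse, List.prod_reverse]
    · rw [List.reverse_reverse, List.map_map]
      have h : F.st ∘ F.st = id := funext fun a => F.st_st a
      rw [h, List.map_id]
  · intro v _ hv
    rw [zip_prod F _ _ (by rw [List.length_reverse, v.2, h])]
    rw [if_neg, mul_zero]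
    intro h1
    apply hv
    apply Subtype.ext
    rw [hv0, h1]
    rw [List.map_map]
    have h : F.st ∘ F.st = id := funext fun a => F.st_st a
    rw [h, List.map_id, List.reverse_reverse]
  · intro h1
    exact absurd (Finset.mem_univ _) h1

private theorem iv_iv (l : ℕ) : Function.Involutive (iv F l) := fun u =>
  Subtype.ext (rev_map_map F u.1)

private theorem sum_iv (l : ℕ) (f : List I → K) :
    ∑ u : List.Vector I l, f (u.1.map F.st).reverse = ∑ u : List.Vector I l, f u.1 :=
  Equiv.sum_comp (iv_iv F l).toPerm fun u : List.Vector I l => f u.1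

/-- iterated contractions of a product -/
private def ti (l : ℕ) (t t' : List I → K) : ℕ → List I → K
  | 0 => tp (2 * l) t t'
  | i + 1 => con F.η (2 * l - 1 - i) (ti l t t' i)

private theorem ti_eq (l : ℕ) (t t' : List I → K) (i : ℕ) : ∀ α β : List I,
    α.length + i = 2 * l → ti F l t t' i (α ++ β) = ∑ γ : List.Vector I i,
      (γ.1.map F.c).prod * (t (α ++ γ.1) * t' ((γ.1.map F.st).reverse ++ β)) := by
  induction i with
  | zero =>
    intro α β h
    rw [sum_vec_zero fun γ => (γ.map F.c).prod * (t (α ++ γ) * t' ((γ.map F.st).reverse ++ β))]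
    have h' : 2 * l = α.length := by omega
    show tp (2 * l) t t' (α ++ β) = _
    rw [h', tp_append]
    simp
  | succ i ih =>
    intro α β h
    rw [sum_vec_succ i fun γ => (γ.map F.c).prod * (t (α ++ γ) * t' ((γ.map F.st).reverse ++ β))]
    have h' : 2 * l - 1 - i = α.length := by omega
    show con F.η (2 * l - 1 - i) (ti F l t t' i) (α ++ β) = _
    rw [h', Form.con_append]
    refine Finset.sum_congr rfl fun a _ => ?_
    have e : α ++ a :: F.st a :: β = (α ++ [a]) ++ F.st a :: β := by simp
    rw [e, ih (α ++ [a]) (F.st a :: β) (by simp; omega), Finset.mul_sum]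
    refine Finset.sum_congr rfl fun γ _ => ?_
    have e1 : α ++ [a] ++ γ.1 = α ++ a :: γ.1 := by simp
    have e2 : ((a :: γ.1).map F.st).reverse ++ β = (γ.1.map F.st).reverse ++ F.st a :: β := by
      simp
    rw [e1, e2, List.map_cons, List.prod_cons, mul_assoc]

end

theorem pf_MLG (hIDS : T_IDS) (hOPG : T_OPG) : T_MLG := by
  intro K _ _ I _ _ F A h l
  refine ⟨?_, hIDS K I F.o F.η F.ω A h F.ω h.om l,
    (hOPG K I F.η F.ω F.η_mul_ω F.ω_mul_η l).2.2.1⟩
  intro t ht t' ht'
  have hmem : ∀ i, i ≤ l → ti F l t t' i ∈ A (2 * l - i) := by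
    intro i
    induction i with
    | zero =>
      intro _
      have h1 := h.tp l l t t' ht ht'
      have h2 : l + l = 2 * l - 0 := by omega
      rw [h2] at h1
      exact h1
    | succ i ih =>
      intro hi
      have h1 := ih (by omega)
      have h2 : 2 * l - i = (2 * l - (i + 1)) + 1 := by omega
      rw [h2] at h1
      exact h.con (2 * l - (i + 1)) (2 * l - 1 - i) _ h1 (by omega)
  refine ⟨ti F l t t' l, ?_, ?_⟩
  · have h1 := hmem l le_rfl
    have h2 : 2 * l - l = l := by omega
    rw [h2] at h1
    exact h1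
  · ext u w
    rw [Matrix.mul_apply]
    show opw F.η l _ u.1 w.1 = ∑ v : List.Vector I l, opw F.η l t u.1 v.1 * opw F.η l t' v.1 w.1
    rw [opw_eq F l _ _ _ w.2, ti_eq F l t t' l u.1 _ (by rw [u.2]; omega), Finset.sum_mul]
    rw [← sum_iv F l fun γ => (γ.map F.c).prod * (t (u.1 ++ γ) * t' ((γ.map F.st).reverse ++
      (w.1.map F.st).reverse)) * ((w.1.map F.st).reverse.map F.c).prod]
    refine Finset.sum_congr rfl fun v _ => ?_
    rw [opw_eq F l t _ _ v.2, opw_eq F l t' _ _ w.2, rev_map_map]
    ring

end Pool.Agent.H48.NL
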