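import Pool.Agent.H2.NL.Basic

/-!
# ZTR: the symmetrization of the identity and the pairing
-/

set_option autoImplicit false
set_option linter.unusedSectionVars false

open Matrix Pool.Agent.H2.NL Pool.Agent.H64.CC

namespace Pool.Agent.H48.NL

section

variable {K : Type} [Field K] {I : Type} [Fintype I] [DecidableEq I] (F : Form K I)

/-- the sum over the words of length `n` -/
private def W : ℕ → (List I → K) → K
  | 0, f => f []
  | n + 1, f => ∑ a, W n fun l => f (a :: l)

private theorem W_congr (n : ℕ) : ∀ f g : List I → K,
    (∀ w : List I, w.length = n → f w = g w) → W n f = W n g := by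
  induction n with
  | zero => intro f g h; exact h [] rfl
  | succ n ih =>
    intro f g h
    show ∑ a, W n _ = ∑ a, W n _
    refine Finset.sum_congr rfl fun a _ => ih _ _ fun w hw => h (a :: w) ?_
    rw [List.length_cons, hw]

private theorem W_zero (n : ℕ) : ∀ f : List I → K,
    (∀ w : List I, w.length = n → f w = 0) → W n f = 0 := by
  induction n with
  | zero => intro f h; exact h [] rfl
  | succ n ih =>
    intro f h
    show ∑ a, W n _ = 0
    refine Finset.sum_eq_zero fun a _ => ih _ fun w hw => h (a :: w) ?_
    rw [List.length_cons, hw]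

private theorem W_single (n : ℕ) : ∀ (f : List I → K) (v : List I), v.length = n →
    (∀ w : List I, w.length = n → w ≠ v → f w = 0) → W n f = f v := by
  induction n with
  | zero =>
    intro f v hv _
    rw [List.length_eq_zero_iff.1 hv]
    rfl
  | succ n ih =>
    intro f v hv h
    match v, hv with
    | a :: v, hv =>
      have hv' : v.length = n := by simpa using hv
      show ∑ b, W n _ = _
      rw [Finset.sum_eq_single a]
      · exact ih (fun l => f (a :: l)) v hv' fun w hw hne => h (a :: w) (by simp [hw])
          fun h1 => hne (List.cons.inj h1).2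
      · intro b _ hb
        exact W_zero n _ fun w hw => h (b :: w) (by simp [hw])
          fun h1 => hb (List.cons.inj h1).1
      · intro h1
        exact absurd (Finset.mem_univ _) h1

private theorem W_add (n m : ℕ) : ∀ f : List I → K,
    W (m + n) f = W m fun u => W n fun v => f (u ++ v) := by
  induction m with
  | zero => intro f; rw [Nat.zero_add]; rfl
  | succ m ih =>
    intro f
    have e : m + 1 + n = (m + n) + 1 := by omega
    rw [e]
    show ∑ a, W (m + n) _ = ∑ a, W m _
    exact Finset.sum_congr rfl fun a _ => ih _

private theorem W_snoc (n : ℕ) (f : List I → K) :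
    W (n + 1) f = W n fun u => ∑ a, f (u ++ [a]) := by
  rw [W_add]
  rfl

private theorem W_mul (n : ℕ) (c : K) : ∀ f : List I → K,
    c * W n f = W n fun w => c * f w := by
  induction n with
  | zero => intro f; rfl
  | succ n ih =>
    intro f
    show c * ∑ a, W n _ = ∑ a, W n _
    rw [Finset.mul_sum]
    exact Finset.sum_congr rfl fun a _ => ih _

private theorem Pr_eq_W (n : ℕ) : ∀ f g : List I → K,
    Pr F n f g = W n fun w => (w.map F.c).prod * (f w * g (w.map F.st)) := by
  induction n with
  | zero =>
    intro f g
    show f [] * g [] = ([].map F.c).prod * (f [] * g _)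
    simp
  | succ n ih =>
    intro f g
    show ∑ a, F.c a * Pr F n _ _ = ∑ a, W n _
    refine Finset.sum_congr rfl fun a _ => ?_
    rw [ih, W_mul]
    refine W_congr n _ _ fun w _ => ?_
    show _ = ((a :: w).map F.c).prod * (f (a :: w) * g ((a :: w).map F.st))
    rw [List.map_cons, List.map_cons, List.prod_cons]
    ring

private theorem Pr_congr (n : ℕ) (f f' g g' : List I → K)
    (hf : ∀ w : List I, w.length = n → f w = f' w)
    (hg : ∀ w : List I, w.length = n → g w = g' w) : Pr F n f g = Pr F n f' g' := by
  rw [Pr_eq_W, Pr_eq_W]
  refine W_congr n _ _ fun w hw => ?_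
  rw [hf w hw, hg _ (by rw [List.length_map, hw])]

private theorem Pr_zero_right (n : ℕ) (f : List I → K) : Pr F n f (fun _ => 0) = 0 := by
  rw [Pr_eq_W]
  exact W_zero n _ fun w _ => by ring

private theorem Pr_zero_left (n : ℕ) (f : List I → K) : Pr F n (fun _ => 0) f = 0 := by
  rw [Pr_eq_W]
  exact W_zero n _ fun w _ => by ring

private theorem Pr_add_right (n : ℕ) : ∀ f g g' : List I → K,
    Pr F n f (fun w => g w + g' w) = Pr F n f g + Pr F n f g' := by
  induction n with
  | zero => intro f g g'; exact mul_add _ _ _
  | succ n ih =>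
    intro f g g'
    show ∑ a, F.c a * Pr F n _ _ = ∑ a, F.c a * Pr F n _ _ + ∑ a, F.c a * Pr F n _ _
    rw [← Finset.sum_add_distrib]
    refine Finset.sum_congr rfl fun a _ => ?_
    rw [ih, mul_add]

private theorem Pr_add_left (n : ℕ) : ∀ f f' g : List I → K,
    Pr F n (fun w => f w + f' w) g = Pr F n f g + Pr F n f' g := by
  induction n with
  | zero => intro f f' g; exact add_mul _ _ _
  | succ n ih =>
    intro f f' g
    show ∑ a, F.c a * Pr F n _ _ = ∑ a, F.c a * Pr F n _ _ + ∑ a, F.c a * Pr F n _ _
    rw [← Finset.sum_add_distrib]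
    refine Finset.sum_congr rfl fun a _ => ?_
    rw [ih, mul_add]

private theorem Pr_sum_right (n : ℕ) (X : List I → K) (g : List ℕ → List I → K) (c : K)
    (L : List (List ℕ)) (h : ∀ js ∈ L, Pr F n X (g js) = c) :
    Pr F n X (fun w => (L.map fun js => g js w).sum) = (L.length : K) * c := by
  induction L with
  | nil =>
    show Pr F n X (fun _ => 0) = _
    rw [Pr_zero_right, List.length_nil, Nat.cast_zero, zero_mul]
  | cons js L ih =>
    show Pr F n X (fun w => g js w + (L.map fun js => g js w).sum) = _
    rw [Pr_add_right, h js List.mem_cons_self,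
      ih fun js' h' => h js' (List.mem_cons_of_mem _ h'), List.length_cons, Nat.cast_succ]
    ring

private theorem Pr_sum_left (n : ℕ) (X : List I → K) (g : List ℕ → List I → K) (c : K)
    (L : List (List ℕ)) (h : ∀ js ∈ L, Pr F n (g js) X = c) :
    Pr F n (fun w => (L.map fun js => g js w).sum) X = (L.length : K) * c := by
  induction L with
  | nil =>
    show Pr F n (fun _ => 0) X = _
    rw [Pr_zero_left, List.length_nil, Nat.cast_zero, zero_mul]
  | cons js L ih =>
    show Pr F n (fun w => g js w + (L.map fun js => g js w).sum) X = _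
    rw [Pr_add_left, h js List.mem_cons_self,
      ih fun js' h' => h js' (List.mem_cons_of_mem _ h'), List.length_cons, Nat.cast_succ]
    ring

private theorem zip_om (x : List I) : ∀ y : List I, x.length = y.length →
    (List.zipWith (fun a b => F.ω a b) x y).prod =
      if y = x.map F.st then (y.map F.c).prod else 0 := by
  induction x with
  | nil =>
    intro y h
    have hy : y = [] := List.length_eq_zero_iff.1 h.symm
    subst hy
    simp
  | cons a x ih =>
    intro y h
    match y, h with
    | b :: y, h =>
      have h' : x.length = y.length := by simpa using h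
      rw [List.zipWith_cons_cons, List.prod_cons, ih y h']
      show F.ω a b * _ = _
      rw [Form.ω, Matrix.of_apply]
      by_cases h1 : b = F.st a
      · by_cases h2 : y = x.map F.st
        · rw [if_pos h1, if_pos h2, if_pos (by rw [h1, h2]; rfl)]
          rfl
        · have h4 : ¬ (b :: y = (a :: x).map F.st) := fun h3 => h2 (List.cons.inj h3).2
          rw [if_pos h1, if_neg h2, if_neg h4, mul_zero]
      · have h4 : ¬ (b :: y = (a :: x).map F.st) := fun h3 => h1 (List.cons.inj h3).1
        rw [if_neg h1, zero_mul, if_neg h4]

private theorem map_st_st (x : List I) : (x.map F.st).map F.st = x := by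
  rw [List.map_map]
  have h : F.st ∘ F.st = id := funext fun a => F.st_st a
  rw [h, List.map_id]

private theorem prod_c_sq (x : List I) : (x.map F.c).prod * (x.map F.c).prod = 1 := by
  induction x with
  | nil => simp
  | cons a x ih =>
    rw [List.map_cons, List.prod_cons]
    have h := F.c_mul_self a
    calc F.c a * (x.map F.c).prod * (F.c a * (x.map F.c).prod)
        = (F.c a * F.c a) * ((x.map F.c).prod * (x.map F.c).prod) := by ring
      _ = 1 := by rw [h, ih, one_mul]

/-- the pairing with the reversed identity -/
private theorem Pr_idt (l : ℕ) (X : List I → K) :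
    Pr F (2 * l) X (rv (idt F.ω l)) =
      W l fun u => (u.map F.c).prod * X (u ++ (u.map F.st).reverse) := by
  rw [Pr_eq_W, two_mul, W_add]
  refine W_congr l _ _ fun u hu => ?_
  have key : ∀ v : List I, v.length = l → rv (idt F.ω l) ((u ++ v).map F.st) =
      if u.map F.st = v.reverse then ((u.map F.st).map F.c).prod else 0 := by
    intro v hv
    have e1 : ((u ++ v).map F.st).reverse = (v.map F.st).reverse ++ (u.map F.st).reverse := by
      simp
    have e2 : ((v.map F.st).reverse).length = l := by simp [hv]
    show idt F.ω l ((u ++ v).map F.st).reverse = _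
    unfold idt
    rw [e1, List.take_left' e2, List.drop_left' e2, List.reverse_reverse]
    rw [zip_om F _ _ (by simp [hu, hv])]
    have e3 : ((v.map F.st).reverse).map F.st = v.reverse := by
      rw [List.map_reverse, map_st_st]
    rw [e3]
  rw [W_single l _ (u.map F.st).reverse (by simp [hu])]
  · rw [key _ (by simp [hu]), if_pos (by rw [List.reverse_reverse])]
    rw [List.map_append, List.prod_append]
    have e4 : ((u.map F.st).reverse.map F.c).prod = ((u.map F.st).map F.c).prod := by
      rw [List.map_reverse, List.prod_reverse]
    rw [e4]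
    have h := prod_c_sq F (u.map F.st)
    calc (u.map F.c).prod * ((u.map F.st).map F.c).prod *
          (X (u ++ (u.map F.st).reverse) * ((u.map F.st).map F.c).prod)
        = (u.map F.c).prod * X (u ++ (u.map F.st).reverse) *
          (((u.map F.st).map F.c).prod * ((u.map F.st).map F.c).prod) := by ring
      _ = _ := by rw [h, mul_one]
  · intro v hv hne
    rw [key v hv, if_neg, mul_zero, mul_zero]
    intro h
    apply hne
    rw [h, List.reverse_reverse]

/-- the iterated contraction of a symmetric tensor -/
private theorem W_itc (hPOS : T_POS) (hCSY : T_CSY) (l : ℕ) : ∀ X : List I → K,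
    Symm F.o (2 * l) X →
    W l (fun u => (u.map F.c).prod * X (u ++ (u.map F.st).reverse)) = itc F l X := by
  induction l with
  | zero =>
    intro X _
    show ([].map F.c).prod * X ([] ++ ([].map F.st).reverse) = X []
    simp
  | succ l ih =>
    intro X hX
    have hX' : Symm F.o (2 * l + 2) X := hX
    rw [W_snoc]
    show _ = itc F l (con F.η 0 X)
    rw [← ih (con F.η 0 X) (hCSY K I F (2 * l) X hX').1]
    refine W_congr l _ _ fun u hu => ?_
    have h1 := hPOS K I F (2 * l) X hX' l (by omega) (u ++ (u.map F.st).reverse)
      (by simp [hu]; omega)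
    rw [← h1, ← hu, Form.con_append, Finset.mul_sum]
    refine Finset.sum_congr rfl fun a _ => ?_
    have e1 : u ++ [a] ++ ((u ++ [a]).map F.st).reverse =
        u ++ a :: F.st a :: (u.map F.st).reverse := by simp
    rw [e1, List.map_append, List.prod_append]
    simp only [List.map_cons, List.map_nil, List.prod_cons, List.prod_nil, mul_one]
    ring

end

theorem pf_ZTR (hPOS : T_POS) (hCSY : T_CSY) (hREV : T_REV) (hPSW : T_PSW) : T_ZTR := by
  intro K _ I _ _ F l L hL
  constructor
  · intro X hX
    have key : ∀ (t : List I → K) (js : List ℕ), (∀ j ∈ js, j + 2 ≤ 2 * l) →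
        Pr F (2 * l) X (rv (sws F.o js t)) = Pr F (2 * l) X (rv t) := by
      intro t js
      induction js with
      | nil => intro _; rfl
      | cons j js ih =>
        intro h
        have hj := h j List.mem_cons_self
        have h1 := ih fun j' h' => h j' (List.mem_cons_of_mem _ h')
        show Pr F (2 * l) X (rv (sw F.o j (sws F.o js t))) = _
        have h2 : Pr F (2 * l) X (rv (sw F.o j (sws F.o js t))) =
            Pr F (2 * l) X (sw F.o (2 * l - 2 - j) (rv (sws F.o js t))) := by
          refine Pr_congr F _ _ _ _ _ (fun _ _ => rfl) fun w hw => ?_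
          have h3 := (hREV K I F (2 * l) (sws F.o js t)).1 (2 * l - 2 - j) (by omega) w hw
          have h4 : 2 * l - 2 - (2 * l - 2 - j) = j := by omega
          rw [h4] at h3
          exact h3.symm
        rw [h2, ← (hPSW K I F (2 * l) (2 * l - 2 - j) X (rv (sws F.o js t)) (by omega)).2, ← h1]
        exact Pr_congr F _ _ _ _ _ (fun w hw => hX _ (by omega) w hw) fun _ _ => rfl
    have h1 : Pr F (2 * l) X (rv (idt F.ω l)) = itc F l X := by
      rw [Pr_idt, W_itc F hPOS hCSY l X hX]
    rw [← h1]
    exact Pr_sum_right F (2 * l) X (fun js => rv (sws F.o js (idt F.ω l)))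
      (Pr F (2 * l) X (rv (idt F.ω l))) L fun js hjs => key _ js (hL js hjs)
  · intro y Z hZ
    have key : ∀ (js : List ℕ), (∀ j ∈ js, j + 2 ≤ 2 * l) →
        Pr F (2 * l) (sws F.o js y) (rv Z) = Pr F (2 * l) y (rv Z) := by
      intro js
      induction js with
      | nil => intro _; rfl
      | cons j js ih =>
        intro h
        have hj := h j List.mem_cons_self
        have h1 := ih fun j' h' => h j' (List.mem_cons_of_mem _ h')
        show Pr F (2 * l) (sw F.o j (sws F.o js y)) (rv Z) = _
        rw [(hPSW K I F (2 * l) j (sws F.o js y) (rv Z) hj).2, ← h1]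
        refine Pr_congr F _ _ _ _ _ (fun _ _ => rfl) fun w hw => ?_
        rw [(hREV K I F (2 * l) Z).1 j hj w hw]
        exact hZ _ (by omega) w.reverse (by rw [List.length_reverse, hw])
    exact Pr_sum_left F (2 * l) (rv Z) (fun js => sws F.o js y) (Pr F (2 * l) y (rv Z)) L
      fun js hjs => key js (hL js hjs)

end Pool.Agent.H48.NL
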